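import Mathlib

/-!
Definitions and module statements for the classification: most bodies of K_o^n are determined by
their i-th section function (up to reflection in o) if and only if n is at least 3.
The proofs on paper are in Paper.md.
-/

set_option autoImplicit false

open Set Filter Topology MeasureTheory

open scoped InnerProductSpace

namespace Pool.Agent.Lib.MP_0b6b0e_gt.ZB

section

variable {E : Type*} [NormedAddCommGroup E] [InnerProductSpace ℝ E]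

/-- Gauge functions of convex bodies with the origin in the interior: sublinear functions between
two multiples of the norm. -/
structure IsG (P : E → ℝ) : Prop where
  add : ∀ x y, P (x + y) ≤ P x + P y
  smul : ∀ c : ℝ, 0 ≤ c → ∀ x, P (c • x) = c * P x
  lower : ∃ c : ℝ, 0 < c ∧ ∀ x, c * ‖x‖ ≤ P x
  upper : ∃ C : ℝ, 0 < C ∧ ∀ x, P x ≤ C * ‖x‖

/-- Differentiable away from the origin. -/
def Smooth (P : E → ℝ) : Prop := ∀ x, x ≠ 0 → DifferentiableAt ℝ P x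

/-- No linear functional is at any point a subgradient both of `P` and of `P (-·)`. -/
def NoCommon (P : E → ℝ) : Prop :=
  ∀ x, x ≠ 0 → ∀ l : E →L[ℝ] ℝ, (∀ y, l y ≤ P y) → l x = P x → (∀ y, l y ≤ P (-y)) →
    l x ≠ P (-x)

/-- At some scale `r`, up to `k r ^ 2`, the function `P` is linear plus `b |⟨w, ·⟩|` near `x` and
linear near `-x`; `r` is small compared with `b` and `b` is small. (For `w = 0`: flat near both
points.) -/
def Ridge (P : E → ℝ) (x w : E) (k : ℝ) : Prop :=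
  ∃ r b : ℝ, 0 < r ∧ 0 < b ∧ r ≤ k * b ∧ b ≤ k ∧ ∃ l l' : E →L[ℝ] ℝ, ∀ h : E, ‖h‖ ≤ r →
    |P (x + h) - P x - l h - b * abs ⟪w, h⟫_ℝ| ≤ k * r ^ 2 ∧
    |P (-x - h) - P (-x) - l' h| ≤ k * r ^ 2

/-- Flat scales and ridge scales at all points of a dense set. -/
def Rich (P : E → ℝ) : Prop :=
  ∃ X : Set E, Dense X ∧ ∀ x ∈ X, x ≠ 0 → (∀ k : ℝ, 0 < k → Ridge P x 0 k) ∧
    ∀ v : E, v ≠ 0 → ⟪x, v⟫_ℝ = 0 → ∃ w : E, ⟪w, v⟫_ℝ ≠ 0 ∧
      (∀ k : ℝ, 0 < k → Ridge P x w k) ∧ ∀ k : ℝ, 0 < k → Ridge P (-x) w k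

/-- The chord equation with exponent `i`: the sums of the `i`-th powers of the two radii in the
directions `x` and `-x` agree. -/
def Chord (i : ℕ) (P p : E → ℝ) : Prop :=
  ∀ x, x ≠ 0 → ((p x)⁻¹) ^ i + ((p (-x))⁻¹) ^ i = ((P x)⁻¹) ^ i + ((P (-x))⁻¹) ^ i

/-- A property of gauge functions that holds on a set with dense interior (uniform distance on the
unit ball). -/
def Robust (Φ : (E → ℝ) → Prop) : Prop :=
  ∀ P : E → ℝ, IsG P → ∀ ε : ℝ, 0 < ε → ∃ P' : E → ℝ, IsG P' ∧ (∀ x, |P' x - P x| ≤ ε * ‖x‖) ∧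
    ∃ δ : ℝ, 0 < δ ∧ ∀ P'' : E → ℝ, IsG P'' → (∀ x, |P'' x - P' x| ≤ δ * ‖x‖) → Φ P''

end

/-- Convex bodies of `ℝ ^ n` with the origin in the interior, with the Hausdorff metric. -/
abbrev Body (n : ℕ) : Type :=
  {K : ConvexBody (EuclideanSpace ℝ (Fin n)) //
    (0 : EuclideanSpace ℝ (Fin n)) ∈ interior (K : Set (EuclideanSpace ℝ (Fin n)))}

/-- The gauge function of a body. -/
noncomputable def gf {n : ℕ} (K : Body n) : EuclideanSpace ℝ (Fin n) → ℝ :=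
  gauge (K.1 : Set (EuclideanSpace ℝ (Fin n)))

/-! ### Module statements -/

/-- Module GB (gauge basics). -/
def GBStatement : Prop :=
  (∀ (n : ℕ) (K : Body n), IsG (gf K)) ∧
  (∀ (n : ℕ) (K L : Body n), gf K = gf L → K = L) ∧
  (∀ (n : ℕ) (K L : Body n), (∀ x, gf L x = gf K (-x)) →
    (L.1 : Set (EuclideanSpace ℝ (Fin n))) = -(K.1 : Set (EuclideanSpace ℝ (Fin n)))) ∧
  (∀ (n : ℕ) (P : EuclideanSpace ℝ (Fin n) → ℝ), IsG P → ∃ K : Body n, gf K = P)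

/-- Module TP (topology). -/
def TPStatement : Prop :=
  ∀ (n : ℕ) (Φ : (EuclideanSpace ℝ (Fin n) → ℝ) → Prop), Robust Φ →
    ∀ᶠ K : Body n in residual (Body n), Φ (gf K)

/-- Approximation by gauge functions of class `C^{1,1}` (Moreau envelope of the square). -/
def MEStatement : Prop :=
  ∀ (n : ℕ) (P : EuclideanSpace ℝ (Fin n) → ℝ), IsG P → ∀ ε : ℝ, 0 < ε →
    ∃ P' : EuclideanSpace ℝ (Fin n) → ℝ, IsG P' ∧ (∀ x, |P' x - P x| ≤ ε * ‖x‖) ∧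
      ∃ C : ℝ, 0 < C ∧ ∀ x h : EuclideanSpace ℝ (Fin n), ‖x‖ = 1 →
        P' (x + h) + P' (x - h) - 2 * P' x ≤ C * ‖h‖ ^ 2

/-- Module SM (smoothness is generic). -/
def SMStatement : Prop :=
  ∀ (n : ℕ), ∀ᶠ K : Body n in residual (Body n), Smooth (gf K)

/-- Module NCA (openness of `NoCommon`). -/
def NCAStatement : Prop :=
  ∀ (n : ℕ) (P : EuclideanSpace ℝ (Fin n) → ℝ), IsG P → NoCommon P →
    ∃ δ : ℝ, 0 < δ ∧ ∀ P' : EuclideanSpace ℝ (Fin n) → ℝ, IsG P' →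
      (∀ x, |P' x - P x| ≤ δ * ‖x‖) → NoCommon P'

/-- Module NCB (density of `NoCommon`). -/
def NCBStatement : Prop :=
  ∀ (n : ℕ), 1 ≤ n → ∀ P : EuclideanSpace ℝ (Fin n) → ℝ, IsG P → ∀ ε : ℝ, 0 < ε →
    ∃ P' : EuclideanSpace ℝ (Fin n) → ℝ, IsG P' ∧ (∀ x, |P' x - P x| ≤ ε * ‖x‖) ∧ NoCommon P'

/-- Module RG. -/
def RGStatement : Prop :=
  ∀ (n : ℕ) (x w : EuclideanSpace ℝ (Fin n)) (k : ℝ), x ≠ 0 → ⟪w, x⟫_ℝ = 0 → 0 < k →
    Robust (fun P => Ridge P x w k)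

/-- Module GN (a generic gauge function has all three properties). -/
def GNStatement : Prop :=
  ∀ (n : ℕ), 1 ≤ n → ∀ᶠ K : Body n in residual (Body n),
    Smooth (gf K) ∧ NoCommon (gf K) ∧ Rich (gf K)

/-! #### The chord equation (modules DV, EX, RK, FL, RI, ND, LC) -/

section

variable {E : Type*} [NormedAddCommGroup E] [InnerProductSpace ℝ E]

/-- The reflected function. -/
def rf (P : E → ℝ) : E → ℝ := fun x => P (-x)

/-- `P ^ (-i)`. -/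
noncomputable def pw (i : ℕ) (P : E → ℝ) (x : E) : ℝ := ((P x)⁻¹) ^ i

/-- The logarithmic derivative of `P` at `x` in the direction `v`. -/
noncomputable def dl (P : E → ℝ) (x v : E) : ℝ := (P x)⁻¹ * fderiv ℝ P x v

end

/-- Module DV: subgradients, the derivative of a smooth gauge function, smoothness of `p` and the
first order relation. -/
def DVStatement : Prop :=
  (∀ (n : ℕ) (P : EuclideanSpace ℝ (Fin n) → ℝ), IsG P → ∀ x,
    ∃ l : EuclideanSpace ℝ (Fin n) →L[ℝ] ℝ, (∀ y, l y ≤ P y) ∧ l x = P x) ∧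
  (∀ (n : ℕ) (P : EuclideanSpace ℝ (Fin n) → ℝ), IsG P → Smooth P → ∀ x, x ≠ 0 →
    (∀ y, fderiv ℝ P x y ≤ P y) ∧ fderiv ℝ P x x = P x ∧ ContinuousAt (fderiv ℝ P) x) ∧
  (∀ (n i : ℕ) (P p : EuclideanSpace ℝ (Fin n) → ℝ), 1 ≤ i → IsG P → IsG p → Smooth P →
    Chord i P p → Smooth p ∧ ∀ x, x ≠ 0 → ∀ v,
      pw i p x * dl p x v + pw i (rf p) x * dl (rf p) x v =
        pw i P x * dl P x v + pw i (rf P) x * dl (rf P) x v)

/-- Module EX: expansion of `pw i P * dl P` at `x ± (r / 2) v`. -/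
def EXStatement : Prop :=
  ∀ (n i : ℕ) (P : EuclideanSpace ℝ (Fin n) → ℝ), IsG P → Smooth P →
    ∀ (x v : EuclideanSpace ℝ (Fin n)), x ≠ 0 → ∀ r : ℕ → ℝ, (∀ m, 0 < r m) →
      Tendsto r atTop (𝓝 0) →
      (∀ᶠ m in atTop,
        0 ≤ fderiv ℝ P (x + (r m / 2) • v) v - fderiv ℝ P (x - (r m / 2) • v) v) ∧
      Tendsto (fun m =>
        (pw i P (x + (r m / 2) • v) * dl P (x + (r m / 2) • v) v -
          pw i P (x - (r m / 2) • v) * dl P (x - (r m / 2) • v) v) / r m -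
        pw i P x * (P x)⁻¹ *
          (fderiv ℝ P (x + (r m / 2) • v) v - fderiv ℝ P (x - (r m / 2) • v) v) / r m)
        atTop (𝓝 (-(i + 1) * pw i P x * (dl P x v) ^ 2))

/-- Module RK: the derivative of a smooth gauge function across a ridge (or a flat place). -/
def RKStatement : Prop :=
  ∀ (n : ℕ) (P : EuclideanSpace ℝ (Fin n) → ℝ), IsG P → Smooth P →
    ∀ (x v w : EuclideanSpace ℝ (Fin n)), x ≠ 0 → ‖v‖ = 1 → (w = 0 ∨ ⟪w, v⟫_ℝ ≠ 0) →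
      (∀ k : ℝ, 0 < k → Ridge P x w k) →
      ∃ (r b : ℕ → ℝ) (C : ℝ), (∀ m, 0 < r m) ∧ (∀ m, 0 < b m) ∧ Tendsto r atTop (𝓝 0) ∧
        Tendsto b atTop (𝓝 0) ∧ Tendsto (fun m => r m / b m) atTop (𝓝 0) ∧
        Tendsto (fun m => (fderiv ℝ P (x + (r m / 2) • v) v -
          fderiv ℝ P (x - (r m / 2) • v) v - 2 * b m * |⟪w, v⟫_ℝ|) / r m) atTop (𝓝 0) ∧
        Tendsto (fun m => (fderiv ℝ (rf P) (x + (r m / 2) • v) v -
          fderiv ℝ (rf P) (x - (r m / 2) • v) v) / r m) atTop (𝓝 0) ∧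
        ∀ᶠ m in atTop,
          ‖fderiv ℝ P (x + (r m / 2) • v) - fderiv ℝ P x‖ ≤ C * b m ∧
          ‖fderiv ℝ P (x - (r m / 2) • v) - fderiv ℝ P x‖ ≤ C * b m ∧
          ‖fderiv ℝ (rf P) (x + (r m / 2) • v) - fderiv ℝ (rf P) x‖ ≤ C * b m ∧
          ‖fderiv ℝ (rf P) (x - (r m / 2) • v) - fderiv ℝ (rf P) x‖ ≤ C * b m

/-- Module FL: the flat scales give the second order inequality. -/
def FLStatement : Prop :=
  ∀ (n i : ℕ) (P p : EuclideanSpace ℝ (Fin n) → ℝ), 1 ≤ i → IsG P → IsG p → Smooth P → Rich P →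
    Chord i P p → ∀ x, x ≠ 0 → ∀ v,
      pw i P x * (dl P x v) ^ 2 + pw i (rf P) x * (dl (rf P) x v) ^ 2 ≤
        pw i p x * (dl p x v) ^ 2 + pw i (rf p) x * (dl (rf p) x v) ^ 2

/-- Module RI: the ridge inequality. -/
def RIStatement : Prop :=
  ∀ (n i : ℕ) (P p : EuclideanSpace ℝ (Fin n) → ℝ), 1 ≤ i → IsG P → IsG p → Smooth P →
    Chord i P p →
    (∀ y, y ≠ 0 → ∀ v, dl p y v = dl (rf p) y v → dl P y v = dl (rf P) y v) →
    ∀ (x v w : EuclideanSpace ℝ (Fin n)), x ≠ 0 → dl P x v = dl (rf P) x v → ⟪w, v⟫_ℝ ≠ 0 →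
      (∀ k : ℝ, 0 < k → Ridge P x w k) →
      ∀ (e : EuclideanSpace ℝ (Fin n)) (t : ℝ), dl P x e ≠ dl (rf P) x e →
        dl p x e - dl (rf p) x e = t * (dl P x e - dl (rf P) x e) →
        pw i p x * t ≤ pw i P x ∧ -(pw i (rf p) x * t) ≤ pw i P x

/-- Module ND: near a point with ridge scales the quotient `P / rf P` is not constant. -/
def NDStatement : Prop :=
  ∀ (n : ℕ) (P : EuclideanSpace ℝ (Fin n) → ℝ), IsG P → Smooth P →
    ∀ (x v w : EuclideanSpace ℝ (Fin n)), x ≠ 0 → ⟪w, v⟫_ℝ ≠ 0 →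
      (∀ k : ℝ, 0 < k → Ridge P x w k) →
      ∀ U ∈ 𝓝 x, ∃ y ∈ U, ∃ e, dl P y e ≠ dl (rf P) y e

/-- Module LC: the chord equation determines a generic gauge function up to reflection, in
dimension at least three. -/
def LCStatement : Prop :=
  ∀ (n i : ℕ), 3 ≤ n → 1 ≤ i → ∀ P p : EuclideanSpace ℝ (Fin n) → ℝ, IsG P → IsG p →
    Smooth P → NoCommon P → Rich P → Chord i P p →
    (∀ x, p x = P x) ∨ ∀ x, p x = P (-x)

/-! #### Funk's theorem (modules SL, GI, FK) -/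

/-- Module SL: Gaussian slabs around the hyperplane orthogonal to `u`. -/
def SLStatement : Prop :=
  ∀ (V : Type) [NormedAddCommGroup V] [InnerProductSpace ℝ V] [FiniteDimensional ℝ V]
    [MeasurableSpace V] [BorelSpace V] (f : V → ℝ), Continuous f →
    (∃ c C : ℝ, 0 < c ∧ ∀ x, |f x| ≤ C * Real.exp (-c * ‖x‖ ^ 2)) →
    (∀ u : V, u ≠ 0 → Tendsto
      (fun ε : ℝ => ∫ x : V, f x * (ε⁻¹ * Real.exp (-Real.pi * (⟪u, x⟫_ℝ / ε) ^ 2)))
      (𝓝[>] 0) (𝓝 (‖u‖⁻¹ * ∫ y : (ℝ ∙ u)ᗮ, f y))) ∧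
    ∃ D : ℝ, ∀ u : V, u ≠ 0 → ∀ ε : ℝ, 0 < ε →
      ∫ x : V, |f x| * (ε⁻¹ * Real.exp (-Real.pi * (⟪u, x⟫_ℝ / ε) ^ 2)) ≤ D * ‖u‖⁻¹

/-- Module GI: a Gaussian integral over the hyperplane orthogonal to `x`. -/
def GIStatement : Prop :=
  ∀ (V : Type) [NormedAddCommGroup V] [InnerProductSpace ℝ V] [FiniteDimensional ℝ V]
    [MeasurableSpace V] [BorelSpace V] (x e : V) (s : ℝ), x ≠ 0 →
    ∫ y : (ℝ ∙ x)ᗮ, Real.cos (s * ⟪e, (y : V)⟫_ℝ) * Real.exp (-‖(y : V)‖ ^ 2 / 2) =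
      (2 * Real.pi) ^ (((Module.finrank ℝ V : ℝ) - 1) / 2) *
        Real.exp (-(s ^ 2 / 2) * (‖e‖ ^ 2 - (⟪e, x⟫_ℝ / ‖x‖) ^ 2))

/-- Module F1: a function with zero integrals over all hyperplanes through the origin. -/
def F1Statement : Prop :=
  ∀ (V : Type) [NormedAddCommGroup V] [InnerProductSpace ℝ V] [FiniteDimensional ℝ V]
    [MeasurableSpace V] [BorelSpace V] (F : V → ℝ), 2 ≤ Module.finrank ℝ V → Continuous F →
    (∃ c C : ℝ, 0 < c ∧ ∀ x, |F x| ≤ C * Real.exp (-c * ‖x‖ ^ 2)) →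
    (∀ u : V, u ≠ 0 → ∫ y : (ℝ ∙ u)ᗮ, F y = 0) →
    ∀ e : V, ‖e‖ = 1 → ∀ s : ℝ,
      ∫ x : V, F x * (‖x‖⁻¹ * Real.exp (-(s ^ 2 / 2) * (1 - (⟪e, x⟫_ℝ / ‖x‖) ^ 2))) = 0

/-- Module F2: polar coordinates and concentration at `± e`. -/
def F2Statement : Prop :=
  ∀ (V : Type) [NormedAddCommGroup V] [InnerProductSpace ℝ V] [FiniteDimensional ℝ V]
    [MeasurableSpace V] [BorelSpace V] (i : ℕ), 1 ≤ i → Module.finrank ℝ V = i + 1 →
    ∀ P p : V → ℝ, IsG P → IsG p →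
    (∀ e : V, ‖e‖ = 1 → ∀ s : ℝ,
      ∫ x : V, (Real.exp (-(p x) ^ 2) - Real.exp (-(P x) ^ 2)) *
        (‖x‖⁻¹ * Real.exp (-(s ^ 2 / 2) * (1 - (⟪e, x⟫_ℝ / ‖x‖) ^ 2))) = 0) →
    Chord i P p

/-- Module FK (Funk): in dimension `i + 1`, the volumes of the sections by hyperplanes through the
origin give the chord equation with exponent `i`. -/
def FKStatement : Prop :=
  ∀ (V : Type) [NormedAddCommGroup V] [InnerProductSpace ℝ V] [FiniteDimensional ℝ V]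
    [MeasurableSpace V] [BorelSpace V] (i : ℕ), 1 ≤ i → Module.finrank ℝ V = i + 1 →
    ∀ P p : V → ℝ, IsG P → IsG p →
    (∀ u : V, u ≠ 0 →
      (volume : Measure (ℝ ∙ u)ᗮ) {y | p (y : V) ≤ 1} =
        (volume : Measure (ℝ ∙ u)ᗮ) {y | P (y : V) ≤ 1}) →
    Chord i P p

/-- Module SC (sections). -/
def SCStatement : Prop :=
  ∀ (n i : ℕ), 1 ≤ i → i ≤ n - 1 → ∀ K L : Body n,
    (∀ S : Submodule ℝ (EuclideanSpace ℝ (Fin n)), Module.finrank ℝ S = i →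
      Measure.hausdorffMeasure (i : ℝ)
          ((L.1 : Set (EuclideanSpace ℝ (Fin n))) ∩ (S : Set (EuclideanSpace ℝ (Fin n)))) =
        Measure.hausdorffMeasure (i : ℝ)
          ((K.1 : Set (EuclideanSpace ℝ (Fin n))) ∩ (S : Set (EuclideanSpace ℝ (Fin n))))) →
    Chord i (gf K) (gf L)

/-- The set of the bodies that are not determined by their `i`-th section function. -/
def Bad (n i : ℕ) : Set (Body n) :=
  {K | ∃ L : Body n, (L.1 : Set (EuclideanSpace ℝ (Fin n))) ≠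
          (K.1 : Set (EuclideanSpace ℝ (Fin n))) ∧
        (L.1 : Set (EuclideanSpace ℝ (Fin n))) ≠ -(K.1 : Set (EuclideanSpace ℝ (Fin n))) ∧
        ∀ S : Submodule ℝ (EuclideanSpace ℝ (Fin n)), Module.finrank ℝ S = i →
          Measure.hausdorffMeasure (i : ℝ)
              ((L.1 : Set (EuclideanSpace ℝ (Fin n))) ∩ (S : Set (EuclideanSpace ℝ (Fin n)))) =
            Measure.hausdorffMeasure (i : ℝ)
              ((K.1 : Set (EuclideanSpace ℝ (Fin n))) ∩ (S : Set (EuclideanSpace ℝ (Fin n))))}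

/-- Positive answer for `n ≥ 3`. -/
def PosStatement : Prop :=
  ∀ (n i : ℕ), 3 ≤ n → 1 ≤ i → i ≤ n - 1 → IsMeagre (Bad n i)

end Pool.Agent.Lib.MP_0b6b0e_gt.ZB
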